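import Pool.Agent.H53.Per.Tmp

set_option autoImplicit false

/-! MP_2e6055, module F5: `OUT7` (helper29). -/

namespace Pool.Agent.H29.Per

open Pool.Agent.H7.UC Pool.Agent.H74.Tri Pool.Agent.H75.Perc Pool.Agent.H75.Lv Pool.Agent.H55.Lane
open Pool.Agent.H53.Per

/-- integer rectangle -/
def Re (a b c d i j : ℤ) : Prop := (a ≤ i ∧ i ≤ b) ∧ (c ≤ j ∧ j ≤ d)

/-- the outer region in coordinates -/
def OP (V1 V2 x1 x2 R t b k e y i j : ℤ) : Prop :=
  Re (V1 - R) (V1 + R) (V2 - R) (V2 + R) i j ∧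
  ¬ Re (x1 - 40 * t) (x1 + 40 * t) (x2 - 40 * t) (x2 + 40 * t) i j ∧
  ¬ Re (-e) e (-e) e i j ∧
  ¬ Re (b + 9 * t) x1 (y - t) (y + t) i j ∧
  ¬ Re (b + 9 * t) (b + 11 * t) (-b - t) (y + t) i j ∧
  ¬ Re (-b - t) (b + 11 * t) (-b - t) (-b + t) i j ∧
  ¬ Re (-b - t) (-b + t) (-b - t) (b + t) i j ∧
  ¬ Re (-b - t) (b - 9 * t) (b - t) (b + t) i j ∧
  ¬ Re (b - 11 * t) (b - 9 * t) (-2 * k - t) (b + t) i j ∧
  ¬ Re (e + 1) (b - 9 * t) (-2 * k - t) (-2 * k + t) i j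

theorem bx_iff {C : Ch} {f g : Fc} {r : ℤ} :
    f ∈ Bx g r ↔ Re (C.X g - r) (C.X g + r) (C.Y g - r) (C.Y g + r) (C.X f) (C.Y f) := by
  rw [C.mem_Bx, abs_le, abs_le]
  unfold Re
  constructor
  · rintro ⟨⟨h1, h2⟩, h3, h4⟩
    exact ⟨⟨by omega, by omega⟩, by omega, by omega⟩
  · rintro ⟨⟨h1, h2⟩, h3, h4⟩
    exact ⟨⟨by omega, by omega⟩, by omega, by omega⟩

theorem mem_out {C : Ch} {p : Pos} {v z0 f : Fc} {R t b k e y : ℤ} (hc : C.c = z0) :
    f ∈ Out7 C p v z0 R t b k e y ↔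
      OP (C.X v) (C.Y v) (C.X (ph p)) (C.Y (ph p)) R t b k e y (C.X f) (C.Y f) := by
  subst hc
  unfold Out7 OP K7 InC Sp.In
  simp only [Set.mem_ofPred_eq, bx_iff (C := C), C.X_c, C.Y_c, List.mem_cons, List.not_mem_nil,
    or_false, forall_eq_or_imp, forall_eq, zero_sub, zero_add]
  exact Iff.rfl

/-- the seven rectangles seen from outside, and the passage -/
def Q1 (V1 V2 x1 x2 R t b y i j : ℤ) : Prop :=
  Re (V1 - R) (-b - t - 1) (V2 - R) (V2 + R) i j ∨ Re (V1 - R) x1 (V2 - R) (-b - t - 1) i j ∨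
  Re (V1 - R) (b + 9 * t - 1) (b + t + 1) (V2 + R) i j ∨
  Re (b + 11 * t + 1) (x1 - 40 * t - 1) (V2 - R) (y - t - 1) i j ∨
  Re (b + 11 * t + 1) x1 (V2 - R) (x2 - 40 * t - 1) i j ∨
  Re (b - 9 * t + 1) (x1 - 40 * t - 1) (y + t + 1) (V2 + R) i j ∨
  Re (b - 9 * t + 1) x1 (x2 + 40 * t + 1) (V2 + R) i j

/-- the inner rectangles -/
def Q2 (t b k e i j : ℤ) : Prop :=
  Re (-b + t + 1) (b + 9 * t - 1) (-b + t + 1) (-e - 1) i j ∨
  Re (e + 1) (b + 9 * t - 1) (-b + t + 1) (-2 * k - t - 1) i j ∨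
  Re (-b + t + 1) (-e - 1) (-b + t + 1) (b - t - 1) i j ∨
  Re (-b + t + 1) (b - 11 * t - 1) (e + 1) (b - t - 1) i j ∨
  Re (e + 1) (b - 11 * t - 1) (-2 * k + t + 1) (b - t - 1) i j

/-- the numbers, linear form -/
structure Nm (t b k e R V1 V2 x1 x2 y : ℤ) : Prop where
  t2 : 2 ≤ t
  tk : 100 * t ≤ k
  ke : 4 * k ≤ e
  eb : 8 * e ≤ b
  bR : R = 4 * b
  a1 : -e ≤ V1
  a2 : V1 ≤ e
  a3 : -e ≤ V2
  a4 : V2 ≤ e
  hx1 : x1 = V1 + R
  a5 : x2 ≤ V2 + R
  hx0 : 0 ≤ x2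
  hy0 : 0 ≤ y
  a6 : x2 ≤ y + 2 * t
  a7 : y ≤ x2 + 2 * t
  a8 : y + t + 1 ≤ V2 + R

theorem nm_of {t b k e R V1 V2 x1 x2 y : ℤ} (h : Num7 t b k e R V1 V2 x1 x2 y) :
    Nm t b k e R V1 V2 x1 x2 y := by
  obtain ⟨h1, h2, h3, h4, h5, h6, h7, h8, h9, h10, h11, h12, h13⟩ := h
  rw [abs_le] at h6 h7 h9 h12
  have := le_abs_self (y - V2)
  exact ⟨h1, h2, h3, h4, h5, h6.1, h6.2, h7.1, h7.2, h8, by omega, h10, h11, by omega, by omega,
    by omega⟩

section num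

variable {t b k e R V1 V2 x1 x2 y : ℤ}

theorem cover (h : Nm t b k e R V1 V2 x1 x2 y) {i j : ℤ} (ho : OP V1 V2 x1 x2 R t b k e y i j) :
    Q1 V1 V2 x1 x2 R t b y i j ∨
    Re (b - 9 * t + 1) (b + 9 * t - 1) (-b + t + 1) (V2 + R) i j ∨ Q2 t b k e i j := by
  obtain ⟨h1, h2, h3, h4, h5, h6, h7, h8, h9, h10, h11, h12, h13, h14, h15, h16⟩ := h
  obtain ⟨⟨⟨o1, o2⟩, o3, o4⟩, nb, ne, k1, k2, k3, k4, k5, k6, k7⟩ := ho
  unfold Q1 Q2
  by_cases c1 : i ≤ -b - t - 1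
  · left; left; exact ⟨⟨by omega, by omega⟩, by omega, by omega⟩
  by_cases c2 : j ≤ -b - t - 1
  · left; right; left; exact ⟨⟨by omega, by omega⟩, by omega, by omega⟩
  by_cases c3 : i ≤ b + 9 * t - 1
  · by_cases c4 : b + t + 1 ≤ j
    · left; right; right; left; exact ⟨⟨by omega, by omega⟩, by omega, by omega⟩
    · have c5 : -b + t + 1 ≤ j := by
        by_contra hh
        exact k3 ⟨⟨by omega, by omega⟩, by omega, by omega⟩
      have c6 : -b + t + 1 ≤ i := by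
        by_contra hh
        exact k4 ⟨⟨by omega, by omega⟩, by omega, by omega⟩
      by_cases c7 : b - 9 * t + 1 ≤ i
      · right; left; exact ⟨⟨by omega, by omega⟩, by omega, by omega⟩
      · have c8 : j ≤ b - t - 1 := by
          by_contra hh
          exact k5 ⟨⟨by omega, by omega⟩, by omega, by omega⟩
        by_cases c9 : b - 11 * t ≤ i
        · have c10 : j ≤ -2 * k - t - 1 := by
            by_contra hh
            exact k6 ⟨⟨by omega, by omega⟩, by omega, by omega⟩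
          right; right; right; left; exact ⟨⟨by omega, by omega⟩, by omega, by omega⟩
        · by_cases c11 : j ≤ -e - 1
          · right; right; left; exact ⟨⟨by omega, by omega⟩, by omega, by omega⟩
          · by_cases c12 : i ≤ -e - 1
            · right; right; right; right; left; exact ⟨⟨by omega, by omega⟩, by omega, by omega⟩
            · by_cases c13 : e + 1 ≤ j
              · right; right; right; right; right; left
                exact ⟨⟨by omega, by omega⟩, by omega, by omega⟩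
              · have c14 : e + 1 ≤ i := by
                  by_contra hh
                  exact ne ⟨⟨by omega, by omega⟩, by omega, by omega⟩
                by_cases c15 : j ≤ -2 * k - t - 1
                · right; right; right; left; exact ⟨⟨by omega, by omega⟩, by omega, by omega⟩
                · have c16 : -2 * k + t + 1 ≤ j := by
                    by_contra hh
                    exact k7 ⟨⟨by omega, by omega⟩, by omega, by omega⟩
                  right; right; right; right; right; right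
                  exact ⟨⟨by omega, by omega⟩, by omega, by omega⟩
  · by_cases c4 : y + t + 1 ≤ j
    · by_cases c5 : i ≤ x1 - 40 * t - 1
      · left; right; right; right; right; right; left
        exact ⟨⟨by omega, by omega⟩, by omega, by omega⟩
      · have c6 : x2 + 40 * t + 1 ≤ j := by
          by_contra hh
          exact nb ⟨⟨by omega, by omega⟩, by omega, by omega⟩
        left; right; right; right; right; right; right
        exact ⟨⟨by omega, by omega⟩, by omega, by omega⟩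
    · have c5 : b + 11 * t + 1 ≤ i := by
        by_contra hh
        exact k2 ⟨⟨by omega, by omega⟩, by omega, by omega⟩
      have c6 : j ≤ y - t - 1 := by
        by_contra hh
        exact k1 ⟨⟨by omega, by omega⟩, by omega, by omega⟩
      by_cases c7 : i ≤ x1 - 40 * t - 1
      · left; right; right; right; left; exact ⟨⟨by omega, by omega⟩, by omega, by omega⟩
      · have c8 : j ≤ x2 - 40 * t - 1 := by
          by_contra hh
          exact nb ⟨⟨by omega, by omega⟩, by omega, by omega⟩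
        left; right; right; right; right; left; exact ⟨⟨by omega, by omega⟩, by omega, by omega⟩

/-- a rectangle is in the outer region -/
theorem sub_op (h : Nm t b k e R V1 V2 x1 x2 y) {i j : ℤ}
    (hq : Q1 V1 V2 x1 x2 R t b y i j ∨
      Re (b - 9 * t + 1) (b + 9 * t - 1) (-b + t + 1) (V2 + R) i j ∨ Q2 t b k e i j) :
    OP V1 V2 x1 x2 R t b k e y i j := by
  obtain ⟨h1, h2, h3, h4, h5, h6, h7, h8, h9, h10, h11, h12, h13, h14, h15, h16⟩ := h
  unfold Q1 Q2 at hq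
  unfold OP
  rcases hq with (hq | hq | hq | hq | hq | hq | hq) | hq | hq | hq | hq | hq | hq <;>
    obtain ⟨⟨q1, q2⟩, q3, q4⟩ := hq <;>
    refine ⟨⟨⟨by omega, by omega⟩, by omega, by omega⟩, ?_, ?_, ?_, ?_, ?_, ?_, ?_, ?_, ?_⟩ <;>
    (rintro ⟨⟨r1, r2⟩, r3, r4⟩; omega)

end num

/-! ### Connections -/

theorem jr (C : Ch) {S : Set Fc} {a b c d : ℤ} (hS : ∀ f, Re a b c d (C.X f) (C.Y f) → f ∈ S)
    {f g : Fc} (hf : Re a b c d (C.X f) (C.Y f)) (hg : Re a b c d (C.X g) (C.Y g)) : Jn S f g :=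
  C.jn_rect (a := a) (b := b) (c := c) (d := d) (fun f hf => hS f ⟨⟨hf.1, hf.2.1⟩, hf.2.2.1, hf.2.2.2⟩)
    ⟨hf.1.1, hf.1.2, hf.2.1, hf.2.2⟩ ⟨hg.1.1, hg.1.2, hg.2.1, hg.2.2⟩

/-- through a common point of two rectangles -/
theorem via (C : Ch) {S : Set Fc} {o : Fc} {i j : ℤ} (h : Jn S o (C.pt i j)) {a b c d : ℤ}
    (hS : ∀ f, Re a b c d (C.X f) (C.Y f) → f ∈ S) (hij : Re a b c d i j) {f : Fc}
    (hf : Re a b c d (C.X f) (C.Y f)) : Jn S o f := by
  refine h.trans (jr C hS ?_ hf)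
  rw [C.X_pt, C.Y_pt]; exact hij

theorem conn1 {C : Ch} {t b k e R V1 V2 x1 x2 y lo : ℤ} (h : Nm t b k e R V1 V2 x1 x2 y)
    (hlo : lo ≤ -k + 1) {S : Set Fc}
    (hQ : ∀ f, Q1 V1 V2 x1 x2 R t b y (C.X f) (C.Y f) → f ∈ S)
    (hP : ∀ f, Re (b - 9 * t + 1) (b + 9 * t - 1) lo (V2 + R) (C.X f) (C.Y f) → f ∈ S) {f : Fc}
    (hf : Q1 V1 V2 x1 x2 R t b y (C.X f) (C.Y f) ∨
      Re (b - 9 * t + 1) (b + 9 * t - 1) lo (V2 + R) (C.X f) (C.Y f)) :
    Jn S (C.pt b (-k + 1)) f := by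
  obtain ⟨h1, h2, h3, h4, h5, h6, h7, h8, h9, h10, h11, h12, h13, h14, h15, h16⟩ := h
  unfold Q1 at hQ
  have g1 : ∀ f, Re (V1 - R) (-b - t - 1) (V2 - R) (V2 + R) (C.X f) (C.Y f) → f ∈ S :=
    fun f hf => hQ f (Or.inl hf)
  have g2 : ∀ f, Re (V1 - R) x1 (V2 - R) (-b - t - 1) (C.X f) (C.Y f) → f ∈ S :=
    fun f hf => hQ f (Or.inr (Or.inl hf))
  have g3 : ∀ f, Re (V1 - R) (b + 9 * t - 1) (b + t + 1) (V2 + R) (C.X f) (C.Y f) → f ∈ S :=
    fun f hf => hQ f (Or.inr (Or.inr (Or.inl hf)))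
  have g4 : ∀ f, Re (b + 11 * t + 1) (x1 - 40 * t - 1) (V2 - R) (y - t - 1) (C.X f) (C.Y f) → f ∈ S :=
    fun f hf => hQ f (Or.inr (Or.inr (Or.inr (Or.inl hf))))
  have g5 : ∀ f, Re (b + 11 * t + 1) x1 (V2 - R) (x2 - 40 * t - 1) (C.X f) (C.Y f) → f ∈ S :=
    fun f hf => hQ f (Or.inr (Or.inr (Or.inr (Or.inr (Or.inl hf)))))
  have g6 : ∀ f, Re (b - 9 * t + 1) (x1 - 40 * t - 1) (y + t + 1) (V2 + R) (C.X f) (C.Y f) → f ∈ S :=
    fun f hf => hQ f (Or.inr (Or.inr (Or.inr (Or.inr (Or.inr (Or.inl hf))))))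
  have g7 : ∀ f, Re (b - 9 * t + 1) x1 (x2 + 40 * t + 1) (V2 + R) (C.X f) (C.Y f) → f ∈ S :=
    fun f hf => hQ f (Or.inr (Or.inr (Or.inr (Or.inr (Or.inr (Or.inr hf))))))
  have c0 : Jn S (C.pt b (-k + 1)) (C.pt b (V2 + R)) := by
    refine jr C hP ?_ ?_ <;> rw [C.X_pt, C.Y_pt] <;>
      exact ⟨⟨by omega, by omega⟩, by omega, by omega⟩
  have c1 : Jn S (C.pt b (-k + 1)) (C.pt (-b - t - 1) (V2 + R)) := by
    refine via C c0 g3 ⟨⟨by omega, by omega⟩, by omega, by omega⟩ ?_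
    rw [C.X_pt, C.Y_pt]; exact ⟨⟨by omega, by omega⟩, by omega, by omega⟩
  have c2 : Jn S (C.pt b (-k + 1)) (C.pt (-b - t - 1) (V2 - R)) := by
    refine via C c1 g1 ⟨⟨by omega, by omega⟩, by omega, by omega⟩ ?_
    rw [C.X_pt, C.Y_pt]; exact ⟨⟨by omega, by omega⟩, by omega, by omega⟩
  have c3 : Jn S (C.pt b (-k + 1)) (C.pt (b + 11 * t + 1) (V2 - R)) := by
    refine via C c2 g2 ⟨⟨by omega, by omega⟩, by omega, by omega⟩ ?_
    rw [C.X_pt, C.Y_pt]; exact ⟨⟨by omega, by omega⟩, by omega, by omega⟩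
  unfold Q1 at hf
  rcases hf with (hf | hf | hf | hf | hf | hf | hf) | hf
  · exact via C c1 g1 ⟨⟨by omega, by omega⟩, by omega, by omega⟩ hf
  · exact via C c2 g2 ⟨⟨by omega, by omega⟩, by omega, by omega⟩ hf
  · exact via C c0 g3 ⟨⟨by omega, by omega⟩, by omega, by omega⟩ hf
  · exact via C c3 g4 ⟨⟨by omega, by omega⟩, by omega, by omega⟩ hf
  · exact via C c3 g5 ⟨⟨by omega, by omega⟩, by omega, by omega⟩ hf
  · exact via C c0 g6 ⟨⟨by omega, by omega⟩, by omega, by omega⟩ hf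
  · have h17 := hf.2.1
    have h18 := hf.2.2
    exact via C c0 g7 ⟨⟨by omega, by omega⟩, by omega, by omega⟩ hf
  · exact via C c0 hP ⟨⟨by omega, by omega⟩, by omega, by omega⟩ hf

theorem out7 : OUT7 := by
  intro C U ω p v z0 R t b k e y hS
  have hc := hS.c
  have hN := nm_of hS.num
  obtain ⟨V1, hV1⟩ : ∃ V1, C.X v = V1 := ⟨_, rfl⟩
  obtain ⟨V2, hV2⟩ : ∃ V2, C.Y v = V2 := ⟨_, rfl⟩
  obtain ⟨x1, hx1⟩ : ∃ x1, C.X (ph p) = x1 := ⟨_, rfl⟩
  obtain ⟨x2, hx2⟩ : ∃ x2, C.Y (ph p) = x2 := ⟨_, rfl⟩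
  rw [hV1, hV2, hx1, hx2] at hN
  have hO : ∀ f, f ∈ Out7 C p v z0 R t b k e y ↔ OP V1 V2 x1 x2 R t b k e y (C.X f) (C.Y f) := by
    intro f
    rw [mem_out hc, hV1, hV2, hx1, hx2]
  have hM : ∀ f, f ∈ M7 C t b k ↔ C.Y f = -k ∧ b - 11 * t ≤ C.X f ∧ C.X f ≤ b + 11 * t :=
    fun f => Iff.rfl
  have hN' := hN
  obtain ⟨h1, h2, h3, h4, h5, h6, h7, h8, h9, h10, h11, h12, h13, h14, h15, h16⟩ := hN'
  have i1 : ∀ f, Q1 V1 V2 x1 x2 R t b y (C.X f) (C.Y f) → f ∈ Out7 C p v z0 R t b k e y :=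
    fun f hf => (hO f).2 (sub_op hN (Or.inl hf))
  have i2 : ∀ f, Re (b - 9 * t + 1) (b + 9 * t - 1) (-b + t + 1) (V2 + R) (C.X f) (C.Y f) →
      f ∈ Out7 C p v z0 R t b k e y := fun f hf => (hO f).2 (sub_op hN (Or.inr (Or.inl hf)))
  have i3 : ∀ f, Q2 t b k e (C.X f) (C.Y f) → f ∈ Out7 C p v z0 R t b k e y :=
    fun f hf => (hO f).2 (sub_op hN (Or.inr (Or.inr hf)))
  refine ⟨?_, ?_, ?_, ?_⟩
  · intro i j a1 a2 a3 a4
    apply i2
    rw [C.X_pt, C.Y_pt]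
    exact ⟨⟨by omega, by omega⟩, by omega, by omega⟩
  · -- everything is joined to the base point
    have base : ∀ f ∈ Out7 C p v z0 R t b k e y, Jn (Out7 C p v z0 R t b k e y) (C.pt b (-k + 1)) f := by
      intro f hf
      have g1 : ∀ f, Re (-b + t + 1) (b + 9 * t - 1) (-b + t + 1) (-e - 1) (C.X f) (C.Y f) →
          f ∈ Out7 C p v z0 R t b k e y := fun f hf => i3 f (Or.inl hf)
      have g2 : ∀ f, Re (e + 1) (b + 9 * t - 1) (-b + t + 1) (-2 * k - t - 1) (C.X f) (C.Y f) →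
          f ∈ Out7 C p v z0 R t b k e y := fun f hf => i3 f (Or.inr (Or.inl hf))
      have g3 : ∀ f, Re (-b + t + 1) (-e - 1) (-b + t + 1) (b - t - 1) (C.X f) (C.Y f) →
          f ∈ Out7 C p v z0 R t b k e y := fun f hf => i3 f (Or.inr (Or.inr (Or.inl hf)))
      have g4 : ∀ f, Re (-b + t + 1) (b - 11 * t - 1) (e + 1) (b - t - 1) (C.X f) (C.Y f) →
          f ∈ Out7 C p v z0 R t b k e y := fun f hf => i3 f (Or.inr (Or.inr (Or.inr (Or.inl hf))))
      have g5 : ∀ f, Re (e + 1) (b - 11 * t - 1) (-2 * k + t + 1) (b - t - 1) (C.X f) (C.Y f) →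
          f ∈ Out7 C p v z0 R t b k e y := fun f hf => i3 f (Or.inr (Or.inr (Or.inr (Or.inr hf))))
      have c0 : Jn (Out7 C p v z0 R t b k e y) (C.pt b (-k + 1)) (C.pt b (-e - 1)) := by
        refine jr C i2 ?_ ?_ <;> rw [C.X_pt, C.Y_pt] <;>
          exact ⟨⟨by omega, by omega⟩, by omega, by omega⟩
      have c1 : Jn (Out7 C p v z0 R t b k e y) (C.pt b (-k + 1)) (C.pt (-e - 1) (-e - 1)) := by
        refine via C c0 g1 ⟨⟨by omega, by omega⟩, by omega, by omega⟩ ?_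
        rw [C.X_pt, C.Y_pt]; exact ⟨⟨by omega, by omega⟩, by omega, by omega⟩
      have c2 : Jn (Out7 C p v z0 R t b k e y) (C.pt b (-k + 1)) (C.pt (-e - 1) (e + 1)) := by
        refine via C c1 g3 ⟨⟨by omega, by omega⟩, by omega, by omega⟩ ?_
        rw [C.X_pt, C.Y_pt]; exact ⟨⟨by omega, by omega⟩, by omega, by omega⟩
      have c3 : Jn (Out7 C p v z0 R t b k e y) (C.pt b (-k + 1)) (C.pt (e + 1) (e + 1)) := by
        refine via C c2 g4 ⟨⟨by omega, by omega⟩, by omega, by omega⟩ ?_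
        rw [C.X_pt, C.Y_pt]; exact ⟨⟨by omega, by omega⟩, by omega, by omega⟩
      rcases cover hN ((hO f).1 hf) with hf | hf | hf
      · exact conn1 hN (lo := -b + t + 1) (by omega) i1 i2 (Or.inl hf)
      · exact conn1 hN (lo := -b + t + 1) (by omega) i1 i2 (Or.inr hf)
      · rcases hf with hf | hf | hf | hf | hf
        · exact via C c0 g1 ⟨⟨by omega, by omega⟩, by omega, by omega⟩ hf
        · exact via C c0 g2 ⟨⟨by omega, by omega⟩, by omega, by omega⟩ hf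
        · exact via C c1 g3 ⟨⟨by omega, by omega⟩, by omega, by omega⟩ hf
        · exact via C c2 g4 ⟨⟨by omega, by omega⟩, by omega, by omega⟩ hf
        · exact via C c3 g5 ⟨⟨by omega, by omega⟩, by omega, by omega⟩ hf
    have hb0 : C.pt b (-k + 1) ∈ Out7 C p v z0 R t b k e y := by
      apply i2
      rw [C.X_pt, C.Y_pt]
      exact ⟨⟨by omega, by omega⟩, by omega, by omega⟩
    intro f hf g hg
    exact ((base f hf).symm hb0).trans (base g hg)
  · intro f hf hbd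
    have j1 : ∀ f, Q1 V1 V2 x1 x2 R t b y (C.X f) (C.Y f) →
        f ∈ Out7 C p v z0 R t b k e y \ M7 C t b k := by
      intro f hf
      refine ⟨i1 f hf, ?_⟩
      rw [hM]
      rintro ⟨m1, m2, m3⟩
      rw [m1] at hf
      rcases hf with hf | hf | hf | hf | hf | hf | hf <;> obtain ⟨⟨q1, q2⟩, q3, q4⟩ := hf <;> omega
    have j2 : ∀ f, Re (b - 9 * t + 1) (b + 9 * t - 1) (-k + 1) (V2 + R) (C.X f) (C.Y f) →
        f ∈ Out7 C p v z0 R t b k e y \ M7 C t b k := by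
      intro f hf
      obtain ⟨⟨q1, q2⟩, q3, q4⟩ := hf
      refine ⟨i2 f ⟨⟨q1, q2⟩, by omega, q4⟩, ?_⟩
      rw [hM]
      rintro ⟨m1, m2, m3⟩
      omega
    rw [hV1, hV2] at hbd
    have hbd' : (C.X f = V1 + R ∨ C.X f = V1 - R) ∨ (C.Y f = V2 + R ∨ C.Y f = V2 - R) := by
      rcases hbd with hbd | hbd
      · left
        rcases abs_cases (C.X f - V1) with ⟨q1, _⟩ | ⟨q1, _⟩ <;> omega
      · right
        rcases abs_cases (C.Y f - V2) with ⟨q1, _⟩ | ⟨q1, _⟩ <;> omega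
    apply conn1 hN (lo := -k + 1) le_rfl j1 j2
    rcases cover hN ((hO f).1 hf) with hf | hf | hf
    · exact Or.inl hf
    · right
      obtain ⟨⟨q1, q2⟩, q3, q4⟩ := hf
      exact ⟨⟨q1, q2⟩, by omega, q4⟩
    · exfalso
      rcases hf with hf | hf | hf | hf | hf <;> obtain ⟨⟨q1, q2⟩, q3, q4⟩ := hf <;> omega
  · have hz : C.pt 0 0 = z0 := by
      rw [← hc]
      have := C.pt_XY C.c
      rwa [C.X_c, C.Y_c] at this
    have hE : ∀ f, f ∈ Bx z0 e ↔ Re (-e) e (-e) e (C.X f) (C.Y f) := by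
      intro f
      rw [bx_iff (C := C), ← hc, C.X_c, C.Y_c, zero_sub, zero_add]
    have key : ∀ i j : ℤ, (C.pt i j ∈ Out7 C p v z0 R t b k e y ∨ C.pt i j ∈ Bx z0 e) →
        ¬ (j = -k ∧ b - 11 * t ≤ i ∧ i ≤ b + 11 * t) →
        (∀ j', -2 * k - 2 * t ≤ j' → j' ≤ -2 * k + 2 * t →
          ¬ Re (e - e / 4) (e + e / 4) (j' - e / 4) (j' + e / 4) i j) →
        C.pt i j ∈ {f | (f ∈ Out7 C p v z0 R t b k e y ∨ f ∈ Bx z0 e) ∧ f ∉ M7 C t b k ∧
          ∀ x, C.X x = e → -2 * k - 2 * t ≤ C.Y x → C.Y x ≤ -2 * k + 2 * t → f ∉ Bx x (e / 4)} := by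
      intro i j a1 a2 a3
      refine ⟨a1, ?_, ?_⟩
      · rw [hM, C.X_pt, C.Y_pt]; exact a2
      · intro x b1 b2 b3
        rw [bx_iff (C := C), C.X_pt, C.Y_pt, b1]
        exact a3 _ b2 b3
    rw [← hz]
    refine (C.jn_col (i := b) (j := -k - 1) (j' := -e - 1) ?_).trans
      ((C.jn_row (i := b) (i' := 0) (j := -e - 1) ?_).trans
      (C.jn_col (i := 0) (j := -e - 1) (j' := 0) ?_))
    · intro l l1 l2
      rw [hz]
      apply key
      · left
        apply i2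
        rw [C.X_pt, C.Y_pt]
        exact ⟨⟨by omega, by omega⟩, by omega, by omega⟩
      · rintro ⟨m1, m2, m3⟩; omega
      · rintro j' m1 m2 ⟨⟨m3, m4⟩, m5, m6⟩; omega
    · intro l l1 l2
      rw [hz]
      apply key
      · left
        apply i3
        left
        rw [C.X_pt, C.Y_pt]
        exact ⟨⟨by omega, by omega⟩, by omega, by omega⟩
      · rintro ⟨m1, m2, m3⟩; omega
      · rintro j' m1 m2 ⟨⟨m3, m4⟩, m5, m6⟩; omega
    · intro l l1 l2
      rw [hz]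
      apply key
      · by_cases hl : l = -e - 1
        · left
          apply i3
          left
          rw [C.X_pt, C.Y_pt]
          exact ⟨⟨by omega, by omega⟩, by omega, by omega⟩
        · right
          rw [hE, C.X_pt, C.Y_pt]
          exact ⟨⟨by omega, by omega⟩, by omega, by omega⟩
      · rintro ⟨m1, m2, m3⟩; omega
      · rintro j' m1 m2 ⟨⟨m3, m4⟩, m5, m6⟩; omega

end Pool.Agent.H29.Per
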